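import Mathlib

/-!
# Homology growth in towers of finite covers: definitions
-/

namespace Pool.Agent.TH118.Tor

open Polynomial Filter Topology

/-- The formal properties of the homology of finite covers of closed oriented aspherical manifolds
that are used.  An element `M` of `𝓜` is a closed oriented aspherical manifold together with a
decreasing sequence of normal subgroups `Γ_n` of finite index of its fundamental group, with trivial
intersection; `M_n` is the corresponding cover; the prime number `p` is fixed.  The product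
`prod M N` is `M × N` with the subgroups `Γ_n × Λ_n`, so that `(M × N)_n = M_n × N_n`. -/
structure Towers (𝓜 : Type*) where
  p : ℕ
  prime : p.Prime
  /-- the dimension -/
  dim : 𝓜 → ℕ
  /-- the degree of `M_n` over `M` -/
  index : 𝓜 → ℕ → ℕ
  index_pos : ∀ M n, 0 < index M n
  /-- the Poincaré polynomial of `M_n` over the rational numbers -/
  bQ : 𝓜 → ℕ → ℕ[X]
  /-- the Poincaré polynomial of `M_n` over the field with `p` elements -/
  bF : 𝓜 → ℕ → ℕ[X]
  /-- the `j`-th coefficient is the dimension of `(tors H_j(M_n; ℤ)) ⊗ 𝔽_p` -/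
  rank : 𝓜 → ℕ → ℕ[X]
  /-- the order of `tors H_j(M_n; ℤ)` -/
  tors : 𝓜 → ℕ → ℕ → ℕ
  le_tors : ∀ M n j, p ^ (rank M n).coeff j ≤ tors M n j
  /-- the universal coefficient theorem -/
  universal : ∀ M n, bF M n = bQ M n + (1 + X) * rank M n
  /-- Poincaré duality -/
  bQ_dual : ∀ M n j, j ≤ dim M → (bQ M n).coeff j = (bQ M n).coeff (dim M - j)
  bQ_top : ∀ M n j, dim M < j → (bQ M n).coeff j = 0
  /-- Poincaré duality: the torsion of `H_j` is dual to that of `H_{dim M - 1 - j}` -/
  rank_dual : ∀ M n j, j < dim M → (rank M n).coeff j = (rank M n).coeff (dim M - 1 - j)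
  rank_top : ∀ M n j, dim M ≤ j → (rank M n).coeff j = 0
  /-- the `L²`-Betti numbers of the universal cover -/
  beta : 𝓜 → ℕ → ℝ
  /-- Lück's approximation theorem -/
  lueck : ∀ M j, Tendsto (fun n => ((bQ M n).coeff j : ℝ) / index M n) atTop (𝓝 (beta M j))
  /-- the Euler characteristic of `M` -/
  chi : 𝓜 → ℤ
  /-- the `L²`-torsion of the universal cover (of significance if the `L²`-Betti numbers vanish) -/
  rho : 𝓜 → ℝ
  /-- products -/
  prod : 𝓜 → 𝓜 → 𝓜
  dim_prod : ∀ M N, dim (prod M N) = dim M + dim N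
  index_prod : ∀ M N n, index (prod M N) n = index M n * index N n
  /-- the Künneth formulas over the two fields, and over the integers: the tensor product of
  `tors H_i(M_n)` and the free group `H_j(N_n) / tors` is a summand of `tors H_{i+j}(M_n × N_n)` -/
  bQ_prod : ∀ M N n, bQ (prod M N) n = bQ M n * bQ N n
  bF_prod : ∀ M N n, bF (prod M N) n = bF M n * bF N n
  tors_prod : ∀ M N n i j, tors M n i ^ (bQ N n).coeff j ≤ tors (prod M N) n (i + j)
  chi_prod : ∀ M N, chi (prod M N) = chi M * chi N
  /-- closed manifolds of odd dimension have Euler characteristic `0` -/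
  chi_odd : ∀ M, Odd (dim M) → chi M = 0
  /-- the product formula `ρ(M × N) = χ(N) ρ(M)` for manifolds `M` with vanishing `L²`-Betti
  numbers -/
  rho_prod : ∀ M N, (∀ j, beta M j = 0) → rho (prod M N) = chi N * rho M

/-- All `L²`-Betti numbers of the universal cover of `M` vanish. -/
def Towers.L2Acyclic {𝓜 : Type*} (T : Towers 𝓜) (M : 𝓜) : Prop :=
  ∀ j, T.beta M j = 0

/-- The power `M × ⋯ × M` with `a + 1` factors, and the covers `M_n × ⋯ × M_n`. -/
def Towers.pow {𝓜 : Type*} (T : Towers 𝓜) (M : 𝓜) : ℕ → 𝓜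
  | 0 => M
  | a + 1 => T.prod (Towers.pow T M a) M

/-- The approximation of the `L²`-torsion of `M` by the torsion of the homology of the covers `M_n` in
degree `k`: the sequence `log |tors H_k(M_n; ℤ)| / [Γ : Γ_n]` converges to `(-1)^k ρ(M)`. -/
def Towers.Approximation {𝓜 : Type*} (T : Towers 𝓜) (M : 𝓜) (k : ℕ) : Prop :=
  Tendsto (fun n => Real.log (T.tors M n k) / T.index M n) atTop (𝓝 ((-1) ^ k * T.rho M))

/-- Q1 for the elements of `𝓜`. -/
def Towers.Q1 {𝓜 : Type*} (T : Towers 𝓜) : Prop :=
  ∀ (M : 𝓜) (k : ℕ), T.dim M = 2 * k + 1 → T.L2Acyclic M → T.Approximation M k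

end Pool.Agent.TH118.Tor
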