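import Pool.Agent.TH118.Tor.Def

/-!
# Torsion in the middle homology of powers
-/

namespace Pool.Agent.TH118.Tor

open Polynomial Filter Topology

theorem coeff_mul_ge (f g : ℕ[X]) (a c : ℕ) : f.coeff a * g.coeff c ≤ (f * g).coeff (a + c) := by
  rw [coeff_mul]
  have hmem : (a, c) ∈ Finset.HasAntidiagonal.antidiagonal (a + c) :=
    Finset.HasAntidiagonal.mem_antidiagonal.2 rfl
  exact Finset.single_le_sum (f := fun x : ℕ × ℕ => f.coeff x.1 * g.coeff x.2)
    (fun _ _ => Nat.zero_le _) hmem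

theorem coeff_pow_ge (f : ℕ[X]) (a n : ℕ) : f.coeff a ^ n ≤ (f ^ n).coeff (n * a) := by
  induction n with
  | zero => simp
  | succ n ih =>
    rw [pow_succ, pow_succ, add_mul, one_mul]
    exact (Nat.mul_le_mul_right _ ih).trans (coeff_mul_ge _ _ _ _)

theorem coeff_mul_mono (f g h : ℕ[X]) (hfg : ∀ m, f.coeff m ≤ g.coeff m) (m : ℕ) :
    (h * f).coeff m ≤ (h * g).coeff m := by
  rw [coeff_mul, coeff_mul]
  exact Finset.sum_le_sum fun x _ => Nat.mul_le_mul_left _ (hfg _)

variable {𝓜 : Type*} (T : Towers 𝓜)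

/-- The `p`-rank of the torsion of the homology of a product. -/
theorem rank_prod (M N : 𝓜) (n : ℕ) : T.rank (T.prod M N) n =
    T.bQ M n * T.rank N n + T.rank M n * T.bQ N n + (1 + X) * (T.rank M n * T.rank N n) := by
  have h := T.bF_prod M N n
  rw [T.universal, T.universal, T.universal, T.bQ_prod] at h
  apply Polynomial.map_injective (Nat.castRingHom ℤ) Nat.cast_injective
  have h2 := congrArg (Polynomial.map (Nat.castRingHom ℤ)) h
  simp only [Polynomial.map_add, Polynomial.map_mul, Polynomial.map_one, Polynomial.map_X] at h2 ⊢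
  have hne : (1 + X : ℤ[X]) ≠ 0 := by
    intro h0
    have := congrArg (fun q : ℤ[X] => q.coeff 0) h0
    simp at this
  apply mul_left_cancel₀ hne
  linear_combination h2

theorem rank_prod_ge (M N : 𝓜) (n m : ℕ) :
    ((1 + X) * (T.rank M n * T.rank N n)).coeff m ≤ (T.rank (T.prod M N) n).coeff m := by
  rw [rank_prod, coeff_add _ ((1 + X) * (T.rank M n * T.rank N n))]
  exact Nat.le_add_left _ _

theorem rank_pow_ge (M : 𝓜) (n a : ℕ) : ∀ m : ℕ,
    ((1 + X) ^ a * T.rank M n ^ (a + 1)).coeff m ≤ (T.rank (T.pow M a) n).coeff m := by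
  induction a with
  | zero => intro m; simp [Towers.pow]
  | succ a ih =>
    intro m
    refine le_trans ?_ (rank_prod_ge T (T.pow M a) M n m)
    have h1 : (1 + X : ℕ[X]) ^ (a + 1) * T.rank M n ^ (a + 1 + 1) =
        ((1 + X) * T.rank M n) * ((1 + X) ^ a * T.rank M n ^ (a + 1)) := by ring
    have h2 : (1 + X : ℕ[X]) * (T.rank (T.pow M a) n * T.rank M n) =
        ((1 + X) * T.rank M n) * T.rank (T.pow M a) n := by ring
    rw [h1, h2]
    exact coeff_mul_mono _ _ _ ih m

theorem index_pow (M : 𝓜) (n a : ℕ) : T.index (T.pow M a) n = T.index M n ^ (a + 1) := by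
  induction a with
  | zero => simp [Towers.pow]
  | succ a ih =>
    show T.index (T.prod (T.pow M a) M) n = _
    rw [T.index_prod, ih, pow_succ _ (a + 1)]

/-- The Künneth formula for `L²`-Betti numbers. -/
theorem beta_prod (M N : 𝓜) (m : ℕ) : T.beta (T.prod M N) m =
    ∑ x ∈ Finset.HasAntidiagonal.antidiagonal m, T.beta M x.1 * T.beta N x.2 := by
  refine tendsto_nhds_unique (T.lueck (T.prod M N) m) ?_
  have h : Tendsto (fun n => ∑ x ∈ Finset.HasAntidiagonal.antidiagonal m,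
      (((T.bQ M n).coeff x.1 : ℝ) / T.index M n) * (((T.bQ N n).coeff x.2 : ℝ) / T.index N n))
      atTop (𝓝 (∑ x ∈ Finset.HasAntidiagonal.antidiagonal m, T.beta M x.1 * T.beta N x.2)) :=
    tendsto_finsetSum _ fun x _ => (T.lueck M x.1).mul (T.lueck N x.2)
  refine h.congr fun n => ?_
  rw [T.bQ_prod, coeff_mul, T.index_prod]
  push_cast
  rw [Finset.sum_div]
  refine Finset.sum_congr rfl fun x _ => ?_
  rw [div_mul_div_comm]

theorem acyclic_prod_left (M N : 𝓜) (h : T.L2Acyclic M) : T.L2Acyclic (T.prod M N) := by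
  intro m
  rw [beta_prod]
  exact Finset.sum_eq_zero fun x _ => by rw [h x.1, zero_mul]

theorem acyclic_pow (M : 𝓜) (h : T.L2Acyclic M) (a : ℕ) : T.L2Acyclic (T.pow M a) := by
  induction a with
  | zero => exact h
  | succ a ih => exact acyclic_prod_left T _ _ ih

theorem rho_pow (M : 𝓜) (h : T.L2Acyclic M) (ho : Odd (T.dim M)) (a : ℕ) :
    T.rho (T.pow M (a + 1)) = 0 := by
  show T.rho (T.prod (T.pow M a) M) = 0
  rw [T.rho_prod _ _ (acyclic_pow T M h a), T.chi_odd M ho]
  simp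

theorem dim_pow (M : 𝓜) (a : ℕ) : T.dim (T.pow M a) = (a + 1) * T.dim M := by
  induction a with
  | zero => simp [Towers.pow]
  | succ a ih =>
    show T.dim (T.prod (T.pow M a) M) = _
    rw [T.dim_prod, ih]
    ring

theorem beta_nonneg (M : 𝓜) (j : ℕ) : 0 ≤ T.beta M j :=
  ge_of_tendsto' (T.lueck M j) fun _ => by positivity

theorem beta_dual (M : 𝓜) (j : ℕ) (hj : j ≤ T.dim M) : T.beta M j = T.beta M (T.dim M - j) := by
  refine tendsto_nhds_unique (T.lueck M j) ((T.lueck M (T.dim M - j)).congr fun n => ?_)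
  rw [← T.bQ_dual M n j hj]

theorem beta_top (M : 𝓜) (j : ℕ) (hj : T.dim M < j) : T.beta M j = 0 := by
  refine tendsto_nhds_unique (T.lueck M j) ?_
  simp [T.bQ_top M _ j hj]

theorem one_le_tors (M : 𝓜) (n j : ℕ) : 1 ≤ T.tors M n j :=
  le_trans (Nat.one_le_pow _ _ T.prime.pos) (T.le_tors M n j)

/-- The torsion in the homology of `H × N`: if `H` is `L²`-acyclic with `ρ(H) ≠ 0` and the torsion
of `H` and of `H × N` in the middle degrees have the growth predicted by `L²`-torsion, then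
`b_l^{(2)}(N) ≤ (-1)^l χ(N)`. -/
theorem beta_le_chi (H N : 𝓜) (a l : ℕ) (hac : T.L2Acyclic H) (hrho : T.rho H ≠ 0)
    (h1 : T.Approximation H a) (h2 : T.Approximation (T.prod H N) (a + l)) :
    T.beta N l ≤ (-1) ^ l * T.chi N := by
  unfold Towers.Approximation at h1 h2
  rw [T.rho_prod H N hac] at h2
  have hτ0 : 0 ≤ (-1 : ℝ) ^ a * T.rho H := ge_of_tendsto' h1 fun n => by
    have := one_le_tors T H n a
    have h3 : 0 ≤ Real.log (T.tors H n a) := Real.log_nonneg (by exact_mod_cast this)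
    positivity
  have hτne : (-1 : ℝ) ^ a * T.rho H ≠ 0 := mul_ne_zero (by simp) hrho
  have hτ : 0 < (-1 : ℝ) ^ a * T.rho H := lt_of_le_of_ne hτ0 (Ne.symm hτne)
  have h3 := h1.mul (T.lueck N l)
  have h4 := le_of_tendsto_of_tendsto' h3 h2 (fun n => by
    rw [T.index_prod, div_mul_div_comm, Nat.cast_mul]
    refine div_le_div_of_nonneg_right ?_ (by positivity)
    have h5 : (T.tors H n a : ℝ) ^ (T.bQ N n).coeff l ≤ T.tors (T.prod H N) n (a + l) := by
      exact_mod_cast T.tors_prod H N n a l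
    have h6 : (0 : ℝ) < T.tors H n a := by exact_mod_cast one_le_tors T H n a
    have h7 := Real.log_le_log (by positivity) h5
    rw [Real.log_pow] at h7
    rw [mul_comm]
    exact h7)
  have h5 : (-1 : ℝ) ^ (a + l) * (T.chi N * T.rho H) =
      ((-1) ^ a * T.rho H) * ((-1) ^ l * T.chi N) := by ring
  rw [h5] at h4
  exact le_of_mul_le_mul_left h4 hτ

/-- The Singer conjecture for `W` of odd dimension. -/
theorem acyclic_of_approximation (H W : 𝓜) (a k : ℕ) (hac : T.L2Acyclic H) (hrho : T.rho H ≠ 0)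
    (hW : T.dim W = 2 * k + 1) (h1 : T.Approximation H a)
    (h2 : T.Approximation (T.prod H (T.prod W W)) (a + (2 * k + 1))) : T.L2Acyclic W := by
  have h3 := beta_le_chi T H (T.prod W W) a (2 * k + 1) hac hrho h1 h2
  rw [T.chi_prod, T.chi_odd W (by rw [hW]; exact odd_two_mul_add_one k), beta_prod] at h3
  have h4 : ∀ x ∈ Finset.HasAntidiagonal.antidiagonal (2 * k + 1),
      T.beta W x.1 * T.beta W x.2 = T.beta W x.1 ^ 2 := by
    intro x hx
    have hx2 : x.1 + x.2 = 2 * k + 1 := Finset.HasAntidiagonal.mem_antidiagonal.1 hx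
    have h5 := beta_dual T W x.1 (by omega)
    rw [hW, show 2 * k + 1 - x.1 = x.2 by omega] at h5
    rw [← h5, sq]
  rw [Finset.sum_congr rfl h4] at h3
  have h6 : ∑ x ∈ Finset.HasAntidiagonal.antidiagonal (2 * k + 1), T.beta W x.1 ^ 2 = 0 := by
    refine le_antisymm (by simpa using h3) (Finset.sum_nonneg fun _ _ => sq_nonneg _)
  intro j
  by_cases hj : j ≤ 2 * k + 1
  · have hmem : (j, 2 * k + 1 - j) ∈ Finset.HasAntidiagonal.antidiagonal (2 * k + 1) :=
      Finset.HasAntidiagonal.mem_antidiagonal.2 (by simp; omega)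
    have h7 := (Finset.sum_eq_zero_iff_of_nonneg (fun _ _ => sq_nonneg _)).1 h6 _ hmem
    simpa using h7
  · exact beta_top T W j (by omega)

/-- The middle homology of the odd powers. -/
theorem middle_ge (M : 𝓜) (k b i n : ℕ) (hM : T.dim M = 2 * k + 1) (h1 : k ≤ b + i)
    (h2 : i ≤ k + b) : (T.rank M n).coeff i ^ (2 * b + 1) ≤
      (T.rank (T.pow M (2 * b)) n).coeff (2 * k * b + k + b) := by
  by_cases hi : i ≤ 2 * k
  · refine le_trans ?_ (rank_pow_ge T M n (2 * b) _)
    have hd : (T.rank M n).coeff i = (T.rank M n).coeff (2 * k - i) := by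
      have := T.rank_dual M n i (by omega)
      rwa [hM, show 2 * k + 1 - 1 - i = 2 * k - i by omega] at this
    have hdeg : 2 * k * b + k + b = (k + b - i) + ((b + 1) * i + b * (2 * k - i)) := by
      obtain ⟨c, hc⟩ : ∃ c, 2 * k = i + c := ⟨2 * k - i, by omega⟩
      have e1 : 2 * k - i = c := by omega
      rw [e1, hc]
      have e2 : k + b - i + i = k + b := by omega
      nlinarith
    have e1 : (1 : ℕ) ≤ ((1 + X : ℕ[X]) ^ (2 * b)).coeff (k + b - i) := by
      rw [coeff_one_add_X_pow]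
      exact Nat.choose_pos (by omega)
    have e2 : (T.rank M n).coeff i ^ (2 * b + 1) ≤
        (T.rank M n ^ (2 * b + 1)).coeff ((b + 1) * i + b * (2 * k - i)) := by
      have h3 : (T.rank M n) ^ (2 * b + 1) = T.rank M n ^ (b + 1) * T.rank M n ^ b := by
        rw [← pow_add]; congr 1; omega
      have h4 : (T.rank M n).coeff i ^ (2 * b + 1) =
          (T.rank M n).coeff i ^ (b + 1) * (T.rank M n).coeff (2 * k - i) ^ b := by
        rw [← hd, ← pow_add]; congr 1; omega
      rw [h3, h4]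
      exact (Nat.mul_le_mul (coeff_pow_ge _ _ _) (coeff_pow_ge _ _ _)).trans
        (coeff_mul_ge _ _ _ _)
    rw [hdeg]
    refine le_trans ?_ (coeff_mul_ge _ _ _ _)
    calc (T.rank M n).coeff i ^ (2 * b + 1) = 1 * (T.rank M n).coeff i ^ (2 * b + 1) := by
          rw [one_mul]
      _ ≤ _ := Nat.mul_le_mul e1 e2
  · rw [T.rank_top M n i (by omega)]
    simp

theorem tendsto_of_pow {x : ℕ → ℝ} (hx : ∀ n, 0 ≤ x n) (m : ℕ) (hm : m ≠ 0)
    (h : Tendsto (fun n => x n ^ m) atTop (𝓝 0)) : Tendsto x atTop (𝓝 0) := by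
  have h1 : Tendsto (fun n => (x n ^ m) ^ ((m : ℝ)⁻¹)) atTop (𝓝 ((0 : ℝ) ^ ((m : ℝ)⁻¹))) :=
    h.rpow_const (Or.inr (by positivity))
  rw [Real.zero_rpow (by positivity)] at h1
  refine h1.congr fun n => ?_
  exact Real.pow_rpow_inv_natCast (hx n) hm

/-- The growth of the `p`-rank of the torsion. -/
theorem rank_growth (M : 𝓜) (k b i : ℕ) (hM : T.dim M = 2 * k + 1) (ha : T.L2Acyclic M)
    (hb : 1 ≤ b) (h : T.Approximation (T.pow M (2 * b)) (2 * k * b + k + b)) (h1 : k ≤ b + i)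
    (h2 : i ≤ k + b) :
    Tendsto (fun n => ((T.rank M n).coeff i : ℝ) / T.index M n) atTop (𝓝 0) := by
  have hrho : T.rho (T.pow M (2 * b)) = 0 := by
    obtain ⟨c, hc⟩ : ∃ c, 2 * b = c + 1 := ⟨2 * b - 1, by omega⟩
    rw [hc]
    exact rho_pow T M ha (by rw [hM]; exact odd_two_mul_add_one k) c
  rw [Towers.Approximation, hrho, mul_zero] at h
  have hp : (1 : ℝ) < T.p := by exact_mod_cast T.prime.one_lt
  have hlog : 0 < Real.log T.p := Real.log_pos hp
  apply tendsto_of_pow (fun n => by positivity) (2 * b + 1) (by omega)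
  have h3 : Tendsto (fun n => (Real.log T.p)⁻¹ * (Real.log (T.tors (T.pow M (2 * b)) n
      (2 * k * b + k + b)) / T.index (T.pow M (2 * b)) n)) atTop (𝓝 0) := by
    simpa using h.const_mul (Real.log T.p)⁻¹
  refine squeeze_zero (fun n => by positivity) (fun n => ?_) h3
  have hidx : (0 : ℝ) < T.index M n := by exact_mod_cast T.index_pos M n
  have h4 : ((T.rank M n).coeff i : ℝ) ^ (2 * b + 1) * Real.log T.p ≤
      Real.log (T.tors (T.pow M (2 * b)) n (2 * k * b + k + b)) := by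
    have h5 := T.le_tors (T.pow M (2 * b)) n (2 * k * b + k + b)
    have h6 : (T.p : ℝ) ^ (T.rank (T.pow M (2 * b)) n).coeff (2 * k * b + k + b) ≤
        T.tors (T.pow M (2 * b)) n (2 * k * b + k + b) := by exact_mod_cast h5
    have h7 := Real.log_le_log (by positivity) h6
    rw [Real.log_pow] at h7
    refine le_trans ?_ h7
    refine mul_le_mul_of_nonneg_right ?_ hlog.le
    exact_mod_cast middle_ge T M k b i n hM h1 h2
  rw [index_pow, div_pow, Nat.cast_pow, ← mul_div_assoc]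
  refine div_le_div_of_nonneg_right ?_ (by positivity)
  rw [inv_mul_eq_div, le_div_iff₀ hlog]
  exact h4

/-- The growth of the homology modulo `p`. -/
theorem growth (M : 𝓜) (k b : ℕ) (hM : T.dim M = 2 * k + 1) (ha : T.L2Acyclic M)
    (hb : 1 ≤ b) (h : T.Approximation (T.pow M (2 * b)) (2 * k * b + k + b)) (j : ℕ)
    (hj : (k < b + j ∧ j ≤ k + b) ∨ k < b) :
    Tendsto (fun n => ((T.bF M n).coeff j : ℝ) / T.index M n) atTop (𝓝 0) := by
  have hr : ∀ i, (k ≤ b + i ∧ i ≤ k + b) ∨ k < b →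
      Tendsto (fun n => ((T.rank M n).coeff i : ℝ) / T.index M n) atTop (𝓝 0) := by
    intro i hi
    by_cases h3 : k ≤ b + i ∧ i ≤ k + b
    · exact rank_growth T M k b i hM ha hb h h3.1 h3.2
    · have h4 : T.dim M ≤ i := by omega
      simp [T.rank_top M _ i h4]
  have hQ := T.lueck M j
  rw [ha j] at hQ
  cases j with
  | zero =>
    have h5 := hQ.add (hr 0 (by omega))
    rw [add_zero] at h5
    refine h5.congr fun n => ?_
    rw [T.universal, coeff_add, add_mul, one_mul, coeff_add]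
    simp [add_div]
  | succ j =>
    have h5 := (hQ.add (hr (j + 1) (by omega))).add (hr j (by omega))
    rw [add_zero, add_zero] at h5
    refine h5.congr fun n => ?_
    rw [T.universal, coeff_add, add_mul, one_mul, coeff_add, coeff_X_mul]
    push_cast
    ring

/-- Homology growth modulo `p` in odd dimensions gives a counterexample to Q1. -/
theorem counterexample (H W : 𝓜) (a k b j : ℕ)
    (hH : T.dim H = 2 * a + 1) (hac : T.L2Acyclic H) (hrho : T.rho H ≠ 0)
    (hW : T.dim W = 2 * k + 1)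
    (hj : ¬ Tendsto (fun n => ((T.bF W n).coeff j : ℝ) / T.index W n) atTop (𝓝 0))
    (hb : 1 ≤ b) (hkb : (k < b + j ∧ j ≤ k + b) ∨ k < b) :
    ∃ (M : 𝓜) (m : ℕ), (M = H ∨ M = T.prod H (T.prod W W) ∨ M = T.pow W (2 * b)) ∧
      T.dim M = 2 * m + 1 ∧ T.L2Acyclic M ∧ ¬ T.Approximation M m := by
  by_cases h1 : T.Approximation H a
  · by_cases h2 : T.Approximation (T.prod H (T.prod W W)) (a + (2 * k + 1))
    · have h3 := acyclic_of_approximation T H W a k hac hrho hW h1 h2
      refine ⟨T.pow W (2 * b), 2 * k * b + k + b, Or.inr (Or.inr rfl), ?_,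
        acyclic_pow T W h3 _, fun h4 => hj (growth T W k b hW h3 hb h4 j hkb)⟩
      rw [dim_pow, hW]
      ring
    · refine ⟨_, _, Or.inr (Or.inl rfl), ?_, acyclic_prod_left T _ _ hac, h2⟩
      rw [T.dim_prod, T.dim_prod, hH, hW]
      ring
  · exact ⟨H, a, Or.inl rfl, hH, hac, h1⟩

/-- Part (b) of the conjecture on torsion growth is false. -/
theorem not_partB (W : 𝓜) (k j : ℕ) (hW : T.dim W = 2 * k + 1)
    (hj : ¬ Tendsto (fun n => ((T.bF W n).coeff j : ℝ) / T.index W n) atTop (𝓝 0))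
    (b : ℕ) (hb : 1 ≤ b) (hkb : (k < b + j ∧ j ≤ k + b) ∨ k < b) :
    ∃ (M : 𝓜) (m : ℕ), (M = W ∨ M = T.pow W (2 * b)) ∧
      T.dim M = 2 * m + 1 ∧ ¬ (T.L2Acyclic M ∧ T.Approximation M m) := by
  by_cases h1 : T.L2Acyclic W
  · refine ⟨T.pow W (2 * b), 2 * k * b + k + b, Or.inr rfl, ?_,
        fun h4 => hj (growth T W k b hW h1 hb h4.2 j hkb)⟩
    rw [dim_pow, hW]
    ring
  · exact ⟨W, k, Or.inl rfl, hW, fun h => h1 h.1⟩

/-- Q1 implies that `L²`-Betti numbers and the growth of the homology modulo `p` vanish in odd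
dimensions, and the inequality for the Euler characteristic in even dimensions. -/
theorem main (h : T.Q1) (H : 𝓜) (hodd : Odd (T.dim H)) (hac : T.L2Acyclic H)
    (hrho : T.rho H ≠ 0) :
    (∀ W : 𝓜, Odd (T.dim W) → T.L2Acyclic W ∧
      ∀ j, Tendsto (fun n => ((T.bF W n).coeff j : ℝ) / T.index W n) atTop (𝓝 0)) ∧
    ∀ (N : 𝓜) (l : ℕ), T.dim N = 2 * l → T.beta N l ≤ (-1) ^ l * T.chi N := by
  obtain ⟨a, ha⟩ := hodd
  refine ⟨fun W hW => ?_, fun N l hN => ?_⟩
  · obtain ⟨k, hk⟩ := hW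
    have h1 : T.L2Acyclic W := by
      refine acyclic_of_approximation T H W a k hac hrho hk (h H a ha hac) ?_
      refine h _ _ ?_ (acyclic_prod_left T _ _ hac)
      rw [T.dim_prod, T.dim_prod, ha, hk]
      ring
    refine ⟨h1, fun j => ?_⟩
    refine growth T W k (k + 1) hk h1 (by omega) ?_ j (Or.inr (by omega))
    refine h _ _ ?_ (acyclic_pow T W h1 _)
    rw [dim_pow, hk]
    ring
  · refine beta_le_chi T H N a l hac hrho (h H a ha hac) ?_
    refine h _ _ ?_ (acyclic_prod_left T _ _ hac)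
    rw [T.dim_prod, ha, hN]
    ring

end Pool.Agent.TH118.Tor
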