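import Pool.Agent.TH118.Tor.Main

/-!
# `L²`-Betti numbers of all manifolds, if Q1 is true
-/

namespace Pool.Agent.TH118.Tor

open Polynomial Filter Topology

variable {𝓜 : Type*} (T : Towers 𝓜)

/-- The `L²`-Poincaré polynomial. -/
noncomputable def PB (M : 𝓜) : ℝ[X] :=
  ∑ j ∈ Finset.range (T.dim M + 1), C (T.beta M j) * X ^ j

theorem coeff_PB (M : 𝓜) (j : ℕ) : (PB T M).coeff j = T.beta M j := by
  unfold PB
  simp only [finsetSum_coeff, coeff_C_mul, coeff_X_pow, mul_ite, mul_one, mul_zero]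
  rw [Finset.sum_ite_eq]
  split_ifs with h
  · rfl
  · rw [Finset.mem_range] at h
    exact (beta_top T M j (by omega)).symm

theorem PB_prod (M N : 𝓜) : PB T (T.prod M N) = PB T M * PB T N := by
  ext m
  rw [coeff_PB, coeff_mul, beta_prod]
  refine Finset.sum_congr rfl fun x _ => ?_
  rw [coeff_PB, coeff_PB]

theorem PB_eval (M : 𝓜) (x : ℝ) :
    (PB T M).eval x = ∑ j ∈ Finset.range (T.dim M + 1), T.beta M j * x ^ j := by
  simp [PB, eval_finsetSum]

/-- The sum of all `L²`-Betti numbers. -/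
noncomputable def tot (M : 𝓜) : ℝ := (PB T M).eval 1

theorem tot_eq (M : 𝓜) : tot T M = ∑ j ∈ Finset.range (T.dim M + 1), T.beta M j := by
  simp [tot, PB_eval]

theorem tot_nonneg (M : 𝓜) : 0 ≤ tot T M := by
  rw [tot_eq]
  exact Finset.sum_nonneg fun j _ => beta_nonneg T M j

theorem tot_prod (M N : 𝓜) : tot T (T.prod M N) = tot T M * tot T N := by
  unfold tot
  rw [PB_prod, eval_mul]

theorem tot_pow (M : 𝓜) (a : ℕ) : tot T (T.pow M a) = tot T M ^ (a + 1) := by
  induction a with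
  | zero => simp [Towers.pow]
  | succ a ih =>
    show tot T (T.prod (T.pow M a) M) = _
    rw [tot_prod, ih, pow_succ _ (a + 1)]

theorem chi_pow (M : 𝓜) (a : ℕ) : T.chi (T.pow M a) = T.chi M ^ (a + 1) := by
  induction a with
  | zero => simp [Towers.pow]
  | succ a ih =>
    show T.chi (T.prod (T.pow M a) M) = _
    rw [T.chi_prod, ih, pow_succ _ (a + 1)]

/-- The middle `L²`-Betti number of `A × A`. -/
theorem sum_sq (A : 𝓜) : T.beta (T.prod A A) (T.dim A) =
    ∑ j ∈ Finset.range (T.dim A + 1), T.beta A j ^ 2 := by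
  rw [beta_prod, Finset.Nat.sum_antidiagonal_eq_sum_range_succ_mk]
  refine Finset.sum_congr rfl fun j hj => ?_
  rw [Finset.mem_range] at hj
  show T.beta A j * T.beta A (T.dim A - j) = _
  rw [← beta_dual T A j (by omega), sq]

/-- The square of the sum of the `L²`-Betti numbers. -/
theorem tot_sq_le (A : 𝓜) :
    tot T A ^ 2 ≤ (T.dim A + 1) * T.beta (T.prod A A) (T.dim A) := by
  rw [sum_sq, tot_eq]
  have h := sq_sum_le_card_mul_sum_sq (s := Finset.range (T.dim A + 1)) (f := T.beta A)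
  simpa using h

theorem tot_le_of_bound (N : 𝓜) (c : ℝ) (hc : 0 ≤ c)
    (h : ∀ a : ℕ, tot T (T.pow N a) ^ 2 ≤ (T.dim (T.pow N a) + 1) * (c ^ (a + 1)) ^ 2) :
    tot T N ≤ c := by
  by_contra hlt
  push Not at hlt
  have hd : ∀ a : ℕ, (T.dim (T.pow N a) : ℝ) + 1 ≤ (T.dim N + 1) * ((a : ℝ) + 1) := by
    intro a
    rw [dim_pow]
    push_cast
    nlinarith [show (0 : ℝ) ≤ a by positivity]
  rcases eq_or_lt_of_le hc with h0 | h0
  · have h1 := h 0
    rw [← h0] at h1 hlt
    simp [Towers.pow] at h1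
    rw [h1] at hlt
    exact lt_irrefl _ hlt
  · set r := (tot T N / c) ^ 2 with hr
    have hr1 : 1 < r := by
      rw [hr]
      have : 1 < tot T N / c := (one_lt_div h0).2 hlt
      nlinarith
    have h2 : Tendsto (fun n : ℕ => ((T.dim N : ℝ) + 1) * ((n : ℝ) ^ 1 / r ^ n)) atTop (𝓝 0) := by
      simpa using (tendsto_pow_const_div_const_pow_of_one_lt 1 hr1).const_mul ((T.dim N : ℝ) + 1)
    have h3 : ∀ a : ℕ, (1 : ℝ) ≤
        ((T.dim N : ℝ) + 1) * (((a + 1 : ℕ) : ℝ) ^ 1 / r ^ (a + 1)) := by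
      intro a
      have h4 := h a
      rw [tot_pow] at h4
      have h5 : (tot T N ^ (a + 1)) ^ 2 ≤ ((T.dim N + 1) * ((a : ℝ) + 1)) * (c ^ (a + 1)) ^ 2 :=
        h4.trans (mul_le_mul_of_nonneg_right (hd a) (by positivity))
      have h6 : r ^ (a + 1) = (tot T N ^ (a + 1)) ^ 2 / (c ^ (a + 1)) ^ 2 := by
        rw [hr, div_pow, div_pow, ← pow_mul, ← pow_mul, ← pow_mul, ← pow_mul, mul_comm 2]
      have h7 : r ^ (a + 1) ≤ (T.dim N + 1) * ((a : ℝ) + 1) := by
        rw [h6, div_le_iff₀ (by positivity)]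
        exact h5
      rw [pow_one, ← mul_div_assoc, one_le_div (by positivity)]
      push_cast
      exact h7
    have h8 := ge_of_tendsto' ((tendsto_add_atTop_iff_nat 1).2 h2) h3
    exact absurd h8 (by norm_num)

/-- If Q1 is true then `b_j^{(2)}(M) = 0` unless `2 j` is congruent to the dimension modulo four. -/
theorem parity (h : T.Q1) (H : 𝓜) (hodd : Odd (T.dim H)) (hac : T.L2Acyclic H)
    (hrho : T.rho H ≠ 0)
    (hchi : ∀ M, (T.chi M : ℝ) = ∑ j ∈ Finset.range (T.dim M + 1), (-1) ^ j * T.beta M j)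
    (M : 𝓜) (j : ℕ) (hj : ¬ ((2 * j : ℤ) ≡ T.dim M [ZMOD 4])) : T.beta M j = 0 := by
  obtain ⟨h1, h2⟩ := main T h H hodd hac hrho
  rcases Nat.even_or_odd (T.dim M) with he | ho
  · obtain ⟨l, hl⟩ := he
    have hl2 : T.dim M = 2 * l := by omega
    have h3 := h2 M l hl2
    have hb : ∀ a : ℕ, tot T (T.pow M a) ^ 2 ≤
        (T.dim (T.pow M a) + 1) * (((-1 : ℝ) ^ l * T.chi M) ^ (a + 1)) ^ 2 := by
      intro a
      refine (tot_sq_le T (T.pow M a)).trans ?_
      refine mul_le_mul_of_nonneg_left ?_ (by positivity)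
      have h4 := h2 (T.prod (T.pow M a) (T.pow M a)) (T.dim (T.pow M a))
        (by rw [T.dim_prod]; ring)
      rw [T.chi_prod, chi_pow, dim_pow, hl2] at h4
      rw [dim_pow, hl2]
      refine h4.trans (le_of_eq ?_)
      have e1 : (-1 : ℝ) ^ ((a + 1) * (2 * l)) = 1 := by
        rw [show (a + 1) * (2 * l) = 2 * ((a + 1) * l) by ring, pow_mul]
        norm_num
      have e2 : ∀ x : ℝ, (((-1 : ℝ) ^ l * x) ^ (a + 1)) ^ 2 = (x ^ (a + 1)) ^ 2 := by
        intro x
        rw [mul_pow, mul_pow, ← pow_mul (-1 : ℝ) l, ← pow_mul (-1 : ℝ), mul_comm _ 2,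
          pow_mul (-1 : ℝ) 2]
        norm_num
      rw [e1, e2]
      push_cast
      ring
    have h5 : 0 ≤ (-1 : ℝ) ^ l * T.chi M := (beta_nonneg T M l).trans h3
    have h6 := tot_le_of_bound T M _ h5 hb
    rw [tot_eq, hchi M, Finset.mul_sum] at h6
    by_cases hjd : j ≤ T.dim M
    · have h7 : ∑ i ∈ Finset.range (T.dim M + 1),
          (T.beta M i - (-1) ^ l * ((-1) ^ i * T.beta M i)) ≤ 0 := by
        rw [Finset.sum_sub_distrib]
        linarith
      have h8 : ∀ i ∈ Finset.range (T.dim M + 1),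
          0 ≤ T.beta M i - (-1) ^ l * ((-1) ^ i * T.beta M i) := by
        intro i _
        have hb0 := beta_nonneg T M i
        rw [← mul_assoc, ← pow_add]
        rcases neg_one_pow_eq_or ℝ (l + i) with h9 | h9 <;> rw [h9] <;> linarith
      have h9 := (Finset.sum_eq_zero_iff_of_nonneg h8).1 (le_antisymm h7
        (Finset.sum_nonneg h8)) j (Finset.mem_range.2 (by omega))
      have h10 : (-1 : ℝ) ^ (l + j) = -1 := by
        apply Odd.neg_one_pow
        rcases Nat.even_or_odd (l + j) with h11 | h11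
        · exfalso
          apply hj
          obtain ⟨q, hq⟩ := h11
          show (2 * (j : ℤ)) % 4 = (T.dim M : ℤ) % 4
          omega
        · exact h11
      rw [← mul_assoc, ← pow_add, h10] at h9
      linarith
    · exact beta_top T M j (by omega)
  · exact (h1 M ho).1 j

end Pool.Agent.TH118.Tor
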